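import Mathlib
import Pool.Agent.P.MP_2ce53a_nt.Prim
import Pool.Agent.P.MP_2ce53a_nt.P3x9.C0
import Pool.Agent.P.MP_2ce53a_nt.P3x9.C1

namespace Pool.Agent.P.MP_2ce53a_nt.P3x9

open Pool.Agent.P.MP_2ce53a_nt

theorem root : cellOf ctx 2297 = ⟨0, 0, 0, 1, 0, 0, 1, 0, 1⟩ := by
  have h : cword (ctx.ceT.get (Nat.shiftRight 2297 6)) 2297 = 39402006196394479212279040100640937041489525912620828916095114244346177944595303527385353373313793410467522871820288 := by decide +kernel
  rw [cellOf, h]
  rfl

theorem universal : Universal 3 9 :=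
  universal_of (C := ctx) (ps := [2, 3, 7]) (N := 2297) (by decide +kernel) F3_pos (by decide +kernel)
    (by decide +kernel) (fun _ hl h => nb3 hl (h 2 (by decide)) (h 3 (by decide)))
    (fun n => ex3 (309 + 504 * n) (by omega)) root
    fun _ H => (m1 H (m0 H (fun _ h => absurd h (Nat.not_lt_zero _))))

end Pool.Agent.P.MP_2ce53a_nt.P3x9
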